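import Pool.Agent.Q193.CF.Met
import Pool.Agent.Q193.CF.Exist

set_option autoImplicit false

/-!
Compensation functions on the unit ball of `M(K)` versus the whole of `M(K)`.

For a compact Hausdorff space `K` the following are equivalent: `K` has a compensation function on
the unit ball of `M(K)`; `K` has a compensation function on the whole of `M(K)`; `K` is metrizable.
In particular the first condition implies the second.

The measures `(δ_a + δ_b - δ_c) / 3` lie in the unit ball. A compensation function on them gives a
continuous family of functions separating the points, and a closing-off argument produces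
a countable family of continuous functions separating the points of `K`. For the converse an
explicit compensation function is built along a sequence of successively finer
partitions of unity indexed by a tree.

Here `M(K)` is `C(K)^*` with its weak-* topology (`WeakDual ℝ C(K, ℝ)`), and the positive part is
given by the Riesz formula `μ⁺(g) = sup {μ(h) : 0 ≤ h ≤ g}` for `g ≥ 0`.
-/

open Set Q193.CF

namespace Pool.Agent.Results.MP_f97503_an.BallIffMetrizable

/-- For every compact Hausdorff space `K`: if `K` admits a compensation function on the closed unit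
ball of `M(K)`, then it admits a compensation function on all of `M(K)`; and each of the two
conditions is equivalent to metrizability of `K`. -/
theorem result (K : Type*) [TopologicalSpace K] [CompactSpace K] [T2Space K] :
    ((∃ ξ : WeakDual ℝ C(K, ℝ) → WeakDual ℝ C(K, ℝ), IsCompensationFunctionOn (unitBall K) ξ) →
      ∃ ξ : WeakDual ℝ C(K, ℝ) → WeakDual ℝ C(K, ℝ), IsCompensationFunctionOn univ ξ) ∧
    ((∃ ξ : WeakDual ℝ C(K, ℝ) → WeakDual ℝ C(K, ℝ), IsCompensationFunctionOn (unitBall K) ξ) ↔
      TopologicalSpace.MetrizableSpace K) ∧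
    ((∃ ξ : WeakDual ℝ C(K, ℝ) → WeakDual ℝ C(K, ℝ), IsCompensationFunctionOn univ ξ) ↔
      TopologicalSpace.MetrizableSpace K) := by
  have h1 : (∃ ξ : WeakDual ℝ C(K, ℝ) → WeakDual ℝ C(K, ℝ),
      IsCompensationFunctionOn (unitBall K) ξ) → TopologicalSpace.MetrizableSpace K :=
    fun ⟨ξ, hξ⟩ => metrizable_of_ball hξ
  have h2 : TopologicalSpace.MetrizableSpace K →
      ∃ ξ : WeakDual ℝ C(K, ℝ) → WeakDual ℝ C(K, ℝ), IsCompensationFunctionOn univ ξ :=
    fun _ => exists_compensationFunction K
  have h3 : (∃ ξ : WeakDual ℝ C(K, ℝ) → WeakDual ℝ C(K, ℝ), IsCompensationFunctionOn univ ξ) →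
      ∃ ξ : WeakDual ℝ C(K, ℝ) → WeakDual ℝ C(K, ℝ), IsCompensationFunctionOn (unitBall K) ξ :=
    fun ⟨ξ, hξ⟩ => ⟨ξ, hξ.1.mono (subset_univ _), fun μ _ => hξ.2 μ (mem_univ _)⟩
  exact ⟨fun h => h2 (h1 h), ⟨h1, fun h => h3 (h2 h)⟩, ⟨fun h => h1 (h3 h), h2⟩⟩

end Pool.Agent.Results.MP_f97503_an.BallIffMetrizable
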